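import Pool.Agent.ACG.Moves

/-! Lifting, second kind: the last term of the lower central series. -/

set_option autoImplicit false

namespace Pool.Agent.ACG

open Relation Subgroup
open scoped commutatorElement

variable {G Ω : Type} [Group G] [Group Ω] [MulDistribMulAction Ω G] {k : ℕ}

/-- the lower central series -/
def LC (G : Type) [Group G] : ℕ → Subgroup G
  | 0 => ⊤
  | i + 1 => ⁅LC G i, (⊤ : Subgroup G)⁆

instance LC_normal : ∀ i, (LC G i).Normal
  | 0 => inferInstanceAs (⊤ : Subgroup G).Normal
  | i + 1 => by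
      have h1 := LC_normal i
      exact Subgroup.commutator_normal _ _

lemma LC_GN : ∀ i, GN Ω (LC G i)
  | 0 => ⟨inferInstanceAs (⊤ : Subgroup G).Normal, fun _ _ _ => Subgroup.mem_top _⟩
  | i + 1 => by
      obtain ⟨h1, h2⟩ := LC_GN i
      refine ⟨Subgroup.commutator_normal _ _, ?_⟩
      intro ω x hx
      have h3 : ⁅LC G i, (⊤ : Subgroup G)⁆ ≤
          (⁅LC G i, (⊤ : Subgroup G)⁆).comap (MulDistribMulAction.toMonoidHom G ω) := by
        rw [Subgroup.commutator_le]
        intro g hg g' _
        rw [Subgroup.mem_comap, map_commutatorElement]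
        exact Subgroup.commutator_mem_commutator (h2 ω g hg) (Subgroup.mem_top _)
      exact h3 hx

lemma GN.sup {A B : Subgroup G} (hA : GN Ω A) (hB : GN Ω B) : GN Ω (A ⊔ B) := by
  haveI := hA.1
  haveI := hB.1
  refine ⟨inferInstance, ?_⟩
  intro ω x hx
  rw [← SetLike.mem_coe, Subgroup.mul_normal] at hx
  obtain ⟨a, ha, b, hb, rfl⟩ := hx
  simp only
  rw [smul_mul']
  exact (A ⊔ B).mul_mem (le_sup_left (a := A) (hA.2 ω a ha)) (le_sup_right (a := A) (hB.2 ω b hb))

/-- the elements which are central modulo `K` -/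
def ctr (K : Subgroup G) (hK : K.Normal) : Subgroup G where
  carrier := {x | ∀ g, ⁅x, g⁆ ∈ K}
  one_mem' := by
    intro g
    rw [commutatorElement_one_left]; exact K.one_mem
  mul_mem' := by
    intro x y hx hy g
    have e : ⁅x * y, g⁆ = x * ⁅y, g⁆ * x⁻¹ * ⁅x, g⁆ := by
      simp only [commutatorElement_def]; group
    rw [e]
    exact K.mul_mem (hK.conj_mem _ (hy g) x) (hx g)
  inv_mem' := by
    intro x hx g
    have e : ⁅x⁻¹, g⁆ = x⁻¹ * ⁅x, g⁆⁻¹ * (x⁻¹)⁻¹ := by
      simp only [commutatorElement_def]; group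
    rw [e]
    exact hK.conj_mem _ (K.inv_mem (hx g)) x⁻¹

lemma ctr_GN {K : Subgroup G} (hK : GN Ω K) : GN Ω (ctr K hK.1) := by
  constructor
  · constructor
    intro x hx g h
    have e : ⁅g * x * g⁻¹, h⁆ = g * ⁅x, g⁻¹ * h * g⁆ * g⁻¹ := by
      simp only [commutatorElement_def]; group
    rw [e]
    exact hK.1.conj_mem _ (hx _) g
  · intro ω x hx g
    have e : ⁅ω • x, g⁆ = ω • ⁅x, ω⁻¹ • g⁆ := by
      simp only [commutatorElement_def, smul_mul', smul_inv', smul_inv_smul]
    rw [e]
    exact hK.2 ω _ (hx _)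

/-- the iterated commutators -/
def CC (P H : Subgroup G) : ℕ → Subgroup G
  | 0 => P
  | i + 1 => ⁅CC P H i, H⁆

section

variable {P H R : Subgroup G}

lemma CC_normal (hP : P.Normal) (hH : H.Normal) : ∀ i, (CC P H i).Normal
  | 0 => hP
  | i + 1 => by
      haveI := CC_normal hP hH i
      haveI := hH
      exact Subgroup.commutator_normal _ _

lemma CC_le_P (hP : P.Normal) (hH : H.Normal) : ∀ i, CC P H i ≤ P
  | 0 => le_rfl
  | i + 1 => by
      haveI := CC_normal hP hH i
      exact (Subgroup.commutator_le_left _ _).trans (CC_le_P hP hH i)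

lemma CC_le_lcs : ∀ i, CC P H i ≤ LC G i
  | 0 => le_top
  | i + 1 => Subgroup.commutator_mono (CC_le_lcs i) le_top

lemma CC_le_H (i : ℕ) : CC P H (i + 1) ≤ ⁅H, (⊤ : Subgroup G)⁆ := by
  rw [Subgroup.commutator_comm]
  exact Subgroup.commutator_mono le_top le_rfl

lemma lcs_le (hP : P.Normal) (hH : H.Normal) (hR : R.Normal) (h1 : P ⊔ R = ⊤) (h2 : H ⊔ R = ⊤) :
    ∀ i, LC G i ≤ CC P H i ⊔ (LC G i ⊓ R)
  | 0 => by
      show (⊤ : Subgroup G) ≤ P ⊔ (⊤ ⊓ R)
      rw [top_inf_eq, h1]
  | i + 1 => by
      have ih := lcs_le hP hH hR h1 h2 i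
      haveI := CC_normal hP hH i
      haveI := CC_normal hP hH (i + 1)
      haveI := hR
      haveI := hH
      haveI hLR : (LC G (i + 1) ⊓ R).Normal := inferInstance
      have hKn : (CC P H (i + 1) ⊔ (LC G (i + 1) ⊓ R)).Normal := inferInstance
      set K := CC P H (i + 1) ⊔ (LC G (i + 1) ⊓ R) with hK
      have key : ∀ x ∈ LC G i, ∀ g : G, ⁅x, g⁆ ∈ K := by
        intro x hx g
        have hx' := ih hx
        rw [← SetLike.mem_coe, Subgroup.mul_normal] at hx'
        obtain ⟨c, hc, r, hr, rfl⟩ := hx'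
        have hg : g ∈ H ⊔ R := by rw [h2]; trivial
        rw [← SetLike.mem_coe, Subgroup.mul_normal] at hg
        obtain ⟨h, hh, s, hs, rfl⟩ := hg
        simp only at *
        have hcL : c ∈ LC G i := CC_le_lcs i hc
        have hrL : r ∈ LC G i := hr.1
        have k1 : ⁅r, h * s⁆ ∈ K := by
          apply le_sup_right (a := CC P H (i + 1))
          refine ⟨Subgroup.commutator_mem_commutator hrL (Subgroup.mem_top _), ?_⟩
          have : ⁅r, h * s⁆ = r * ((h * s) * r⁻¹ * (h * s)⁻¹) := by
            simp only [commutatorElement_def]; group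
          rw [this]
          exact R.mul_mem hr.2 (hR.conj_mem _ (R.inv_mem hr.2) _)
        have k2 : ⁅c, h⁆ ∈ K :=
          le_sup_left (a := CC P H (i + 1)) (Subgroup.commutator_mem_commutator hc hh)
        have k3 : ⁅c, s⁆ ∈ K := by
          apply le_sup_right (a := CC P H (i + 1))
          refine ⟨Subgroup.commutator_mem_commutator hcL (Subgroup.mem_top _), ?_⟩
          rw [commutatorElement_def]
          exact R.mul_mem (hR.conj_mem _ hs c) (R.inv_mem hs)
        have e : ⁅c * r, h * s⁆ = c * ⁅r, h * s⁆ * c⁻¹ * (⁅c, h⁆ * (h * ⁅c, s⁆ * h⁻¹)) := by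
          simp only [commutatorElement_def]; group
        rw [e]
        exact K.mul_mem (hKn.conj_mem _ k1 c) (K.mul_mem k2 (hKn.conj_mem _ k3 h))
      show ⁅LC G i, (⊤ : Subgroup G)⁆ ≤ K
      rw [Subgroup.commutator_le]
      intro x hx g _
      exact key x hx g

end

/-- Lifting, one entry. -/
lemma oneB {m : ℕ} (hbot : LC G (m + 2) = ⊥) (a : Fin k → G) (ha : Gen Ω a)
    {i j : Fin k} (hij : i ≠ j) {y : G} (hy : y ∈ LC G (m + 1)) :
    AC Ω a (Function.update a j (a j * y)) := by
  have hcen : ∀ z ∈ LC G (m + 1), ∀ g : G, g * z = z * g := by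
    intro z hz g
    have h1 : ⁅z, g⁆ ∈ LC G (m + 2) :=
      Subgroup.commutator_mem_commutator hz (Subgroup.mem_top g)
    rw [hbot, Subgroup.mem_bot] at h1
    exact (commutatorElement_eq_one_iff_mul_comm.1 h1).symm
  set H := nc Ω ({a j} : Set G) with hH
  set R := nc Ω {x | ∃ l, l ≠ j ∧ a l = x} with hR
  set P := nc Ω ({a j * a i} : Set G) with hP
  have gH : GN Ω H := nc_GN _
  have gR : GN Ω R := nc_GN _
  have gP : GN Ω P := nc_GN _
  have mH : a j ∈ H := subset_nc _ (Set.mem_singleton _)
  have mP : a j * a i ∈ P := subset_nc _ (Set.mem_singleton _)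
  have mR : ∀ l, l ≠ j → a l ∈ R := fun l hl => subset_nc _ ⟨l, hl, rfl⟩
  have h1 : P ⊔ R = ⊤ := by
    have g := gP.sup gR
    refine ha _ g.1 g.2 ?_
    intro l
    by_cases hl : l = j
    · subst hl
      have e : a l = a l * a i * (a i)⁻¹ := by rw [mul_inv_cancel_right]
      rw [e]
      exact (P ⊔ R).mul_mem (le_sup_left (a := P) mP)
        ((P ⊔ R).inv_mem (le_sup_right (a := P) (mR i hij)))
    · exact le_sup_right (a := P) (mR l hl)
  have h2 : H ⊔ R = ⊤ := by
    have g := gH.sup gR
    refine ha _ g.1 g.2 ?_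
    intro l
    by_cases hl : l = j
    · subst hl
      exact le_sup_left (a := H) mH
    · exact le_sup_right (a := H) (mR l hl)
  have hd := lcs_le gP.1 gH.1 gR.1 h1 h2 (m + 1) hy
  haveI := CC_normal gP.1 gH.1 (m + 1)
  haveI := gR.1
  haveI : (LC G (m + 1) ⊓ R).Normal := inferInstance
  rw [← SetLike.mem_coe, Subgroup.mul_normal] at hd
  obtain ⟨z, hz, r, hr, hzr⟩ := hd
  simp only at hzr
  subst hzr
  have zL : z ∈ LC G (m + 1) := CC_le_lcs _ hz
  have zP : z ∈ P := CC_le_P gP.1 gH.1 _ hz
  have zH : z ∈ ⁅H, (⊤ : Subgroup G)⁆ := CC_le_H _ hz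
  -- the path
  set b := Function.update a j (a j * a i) with hb
  have s1 : AC Ω a b := mv_mul a hij.symm
  have bi : b i = a i := by rw [hb, Function.update_of_ne hij]
  have bj : b j = a j * a i := by rw [hb, Function.update_self]
  set c := Function.update b i (b i * z⁻¹) with hc
  have s2 : AC Ω b c := by
    refine mulMove b i ?_
    intro K hK hl
    have h3 : P ≤ K := nc_le hK (by
      intro x hx
      rw [Set.mem_singleton_iff] at hx
      rw [hx, ← bj]
      exact hl j hij.symm)
    exact K.inv_mem (h3 zP)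
  have ci : c i = a i * z⁻¹ := by rw [hc, Function.update_self, bi]
  have cj : c j = a j * a i := by rw [hc, Function.update_of_ne hij.symm, bj]
  set d := Function.update c j (a j * z) with hdd
  have s3 : AC Ω c d := by
    have := mv_mul_inv (Ω := Ω) c hij.symm
    rw [ci, cj] at this
    have e : a j * a i * (a i * z⁻¹)⁻¹ = a j * z := by
      rw [mul_inv_rev, inv_inv, mul_assoc, ← mul_assoc (a i), hcen z zL (a i), mul_assoc z,
        mul_inv_cancel, mul_one]
    rwa [e] at this
  have di : d i = a i * z⁻¹ := by rw [hdd, Function.update_of_ne hij, ci]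
  have dj : d j = a j * z := by rw [hdd, Function.update_self]
  set e := Function.update d i (d i * z) with he
  have s4 : AC Ω d e := by
    refine mulMove d i ?_
    intro K hK hl
    have h3 : a j * z ∈ K := by rw [← dj]; exact hl j hij.symm
    have h4 : H ≤ ctr K hK.1 := nc_le (ctr_GN hK) (by
      intro x hx
      rw [Set.mem_singleton_iff] at hx
      rw [hx]
      intro g
      have e1 : ⁅a j, g⁆ = ⁅a j * z, g⁆ := by
        simp only [commutatorElement_def]
        have := hcen z zL g
        calc a j * g * (a j)⁻¹ * g⁻¹ = a j * (g * z) * z⁻¹ * (a j)⁻¹ * g⁻¹ := by group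
          _ = a j * z * g * (a j * z)⁻¹ * g⁻¹ := by rw [this]; group
      rw [e1, commutatorElement_def, mul_assoc, mul_assoc]
      have := hK.1.conj_mem _ (K.inv_mem h3) g
      rw [← mul_assoc g]
      exact K.mul_mem h3 this)
    have h5 : ⁅H, (⊤ : Subgroup G)⁆ ≤ K := by
      rw [Subgroup.commutator_le]
      intro x hx g _
      exact h4 hx g
    exact h5 zH
  have hea : e = Function.update a j (a j * z) := by
    funext l
    by_cases hli : l = i
    · subst hli
      rw [he, Function.update_self, di, inv_mul_cancel_right, Function.update_of_ne hij]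
    · rw [he, Function.update_of_ne hli]
      by_cases hlj : l = j
      · subst hlj; rw [dj, Function.update_self]
      · rw [hdd, Function.update_of_ne hlj, hc, Function.update_of_ne hli, hb,
          Function.update_of_ne hlj, Function.update_of_ne hlj]
  have s5 : AC Ω e (Function.update e j (e j * r)) := by
    refine mulMove e j ?_
    intro K hK hl
    have h3 : R ≤ K := nc_le hK (by
      rintro x ⟨l, hlj, rfl⟩
      have := hl l hlj
      rwa [hea, Function.update_of_ne hlj] at this)
    exact h3 hr.2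
  rw [hea, Function.update_self, Function.update_idem, mul_assoc] at s5
  have s14 := ((s1.trans s2).trans s3).trans s4
  rw [hea] at s14
  exact s14.trans s5

/-- Lifting, second kind. -/
theorem liftB {m : ℕ} (hbot : LC G (m + 2) = ⊥) (hk : 2 ≤ k) {U V : Fin k → G}
    (hU : Gen Ω U) (hUV : ∀ i, (U i)⁻¹ * V i ∈ LC G (m + 1)) : AC Ω U V := by
  classical
  have key : ∀ s : Finset (Fin k), AC Ω U (fun l => if l ∈ s then V l else U l) := by
    intro s
    induction s using Finset.induction_on with
    | empty => simpa using AC.refl (Ω := Ω) U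
    | insert j s hj ih =>
      obtain ⟨i, hij⟩ : ∃ i : Fin k, i ≠ j := by
        by_cases h0 : j = ⟨0, by omega⟩
        · exact ⟨⟨1, by omega⟩, by rw [h0]; simp [Fin.ext_iff]⟩
        · exact ⟨⟨0, by omega⟩, Ne.symm h0⟩
      have h1 := oneB hbot (fun l => if l ∈ s then V l else U l) (ih.gen hU) hij (y := (U j)⁻¹ * V j)
        (hUV j)
      have e : (fun l => if l ∈ insert j s then V l else U l)
          = Function.update (fun l => if l ∈ s then V l else U l) j
            ((fun l => if l ∈ s then V l else U l) j * ((U j)⁻¹ * V j)) := by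
        funext l
        by_cases hl : l = j
        · subst hl
          simp [hj]
        · rw [Function.update_of_ne hl]
          simp [Finset.mem_insert, hl]
      rw [e]
      exact ih.trans h1
  have := key Finset.univ
  simpa using this

end Pool.Agent.ACG
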