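import Pool.Agent.ACG.LiftA
import Pool.Agent.ACG.LiftB

/-! Existence of a lifting step of the first kind in a group which is not nilpotent. -/

set_option autoImplicit false

namespace Pool.Agent.ACG

open Relation Subgroup
open scoped commutatorElement

variable {G Ω : Type} [Group G] [Group Ω] [MulDistribMulAction Ω G]

/-- iterated commutators with the whole group -/
def It (A : Subgroup G) : ℕ → Subgroup G
  | 0 => A
  | i + 1 => ⁅It A i, (⊤ : Subgroup G)⁆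

lemma comm_GN {A B : Subgroup G} (hA : GN Ω A) (hB : GN Ω B) : GN Ω ⁅A, B⁆ := by
  have h1 := hA.1
  have h2 := hB.1
  refine ⟨Subgroup.commutator_normal _ _, ?_⟩
  intro ω x hx
  have h3 : ⁅A, B⁆ ≤ (⁅A, B⁆).comap (MulDistribMulAction.toMonoidHom G ω) := by
    rw [Subgroup.commutator_le]
    intro g hg g' hg'
    rw [Subgroup.mem_comap, map_commutatorElement]
    exact Subgroup.commutator_mem_commutator (hA.2 ω g hg) (hB.2 ω g' hg')
  exact h3 hx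

lemma top_GN : GN Ω (⊤ : Subgroup G) :=
  ⟨inferInstance, fun _ _ _ => Subgroup.mem_top _⟩

lemma bot_GN : GN Ω (⊥ : Subgroup G) := by
  refine ⟨inferInstance, fun ω h hh => ?_⟩
  rw [Subgroup.mem_bot] at hh ⊢
  rw [hh, smul_one]

lemma It_GN {A : Subgroup G} (hA : GN Ω A) : ∀ i, GN Ω (It A i)
  | 0 => hA
  | i + 1 => comm_GN (It_GN hA i) top_GN

lemma It_succ_le {A : Subgroup G} (hA : GN Ω A) (i : ℕ) : It A (i + 1) ≤ It A i := by
  have h1 := (It_GN hA i).1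
  exact Subgroup.commutator_le_left _ _

lemma It_anti {A : Subgroup G} (hA : GN Ω A) {i j : ℕ} (h : i ≤ j) : It A j ≤ It A i := by
  induction j, h using Nat.le_induction with
  | base => exact le_rfl
  | succ j _ ih => exact (It_succ_le hA j).trans ih

lemma It_mono {A B : Subgroup G} (h : A ≤ B) : ∀ i, It A i ≤ It B i
  | 0 => h
  | i + 1 => Subgroup.commutator_mono (It_mono h i) le_rfl

lemma It_fix {A : Subgroup G} (h : ⁅A, (⊤ : Subgroup G)⁆ = A) : ∀ i, It A i = A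
  | 0 => rfl
  | i + 1 => by
      show ⁅It A i, (⊤ : Subgroup G)⁆ = A
      rw [It_fix h i, h]

lemma comm_sup_le {A B C : Subgroup G} (hA : A.Normal) (hB : B.Normal) (hC : C.Normal) :
    ⁅A ⊔ B, C⁆ ≤ ⁅A, C⁆ ⊔ ⁅B, C⁆ := by
  have h1 : (⁅A, C⁆).Normal := Subgroup.commutator_normal _ _
  have h2 : (⁅B, C⁆).Normal := Subgroup.commutator_normal _ _
  have h3 : (⁅A, C⁆ ⊔ ⁅B, C⁆).Normal := inferInstance
  rw [Subgroup.commutator_le]
  intro x hx g hg
  rw [← SetLike.mem_coe, Subgroup.mul_normal] at hx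
  obtain ⟨a, ha, b, hb, rfl⟩ := hx
  simp only
  have e : ⁅a * b, g⁆ = a * ⁅b, g⁆ * a⁻¹ * ⁅a, g⁆ := by
    simp only [commutatorElement_def]; group
  rw [e]
  exact (⁅A, C⁆ ⊔ ⁅B, C⁆).mul_mem
    (h3.conj_mem _ (le_sup_right (a := ⁅A, C⁆) (Subgroup.commutator_mem_commutator hb hg)) a)
    (le_sup_left (a := ⁅A, C⁆) (Subgroup.commutator_mem_commutator ha hg))

lemma It_sup_le {A B : Subgroup G} (hA : GN Ω A) (hB : GN Ω B) : ∀ i,
    It (A ⊔ B) i ≤ It A i ⊔ It B i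
  | 0 => le_rfl
  | i + 1 => by
      have ih := It_sup_le hA hB i
      exact (Subgroup.commutator_mono ih le_rfl).trans
        (comm_sup_le (It_GN hA i).1 (It_GN hB i).1 inferInstance)

/-- The sequence becomes constant. -/
lemma It_stab [Finite G] {A : Subgroup G} (hA : GN Ω A) :
    ∃ i, ⁅It A i, (⊤ : Subgroup G)⁆ = It A i := by
  obtain ⟨M, ⟨i, rfl⟩, hmin⟩ := (wellFounded_lt (α := Subgroup G)).has_min
    (Set.range (It A)) ⟨_, ⟨0, rfl⟩⟩
  refine ⟨i, ?_⟩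
  have h1 : It A (i + 1) ≤ It A i := It_succ_le hA i
  rcases eq_or_lt_of_le h1 with h2 | h2
  · exact h2
  · exact absurd h2 (hmin _ ⟨i + 1, rfl⟩)

/-- **Existence of a step of the first kind.** -/
theorem exists_typeA [Finite G] {N0 : Subgroup G} (h0 : GN Ω N0) (hne : N0 ≠ ⊥)
    (hfix : ⁅N0, (⊤ : Subgroup G)⁆ = N0) : ∃ N G0 : Subgroup G, TypeA Ω N G0 ∧ N ≠ ⊥ ∧
      N ≤ ⁅(⊤ : Subgroup G), (⊤ : Subgroup G)⁆ := by
  obtain ⟨N, ⟨hN, hNb, hNf⟩, hmin⟩ := (wellFounded_lt (α := Subgroup G)).has_min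
    {N | GN Ω N ∧ N ≠ ⊥ ∧ ⁅N, (⊤ : Subgroup G)⁆ = N} ⟨N0, h0, hne, hfix⟩
  obtain ⟨G0, ⟨hG, m0, hm0⟩, hmax⟩ := (wellFounded_gt (α := Subgroup G)).has_min
    {H | GN Ω H ∧ ∃ m, It ⁅N, H⁆ m = ⊥} ⟨⊥, bot_GN, 0, by
      show ⁅N, (⊥ : Subgroup G)⁆ = ⊥
      exact Subgroup.commutator_bot_right _⟩
  refine ⟨N, G0, ⟨hN, hG, ?_, ?_⟩, hNb, ?_⟩
  · rintro rfl
    rw [hNf, It_fix hNf] at hm0
    exact hNb hm0
  · intro H hH hnot
    by_cases hex : ∃ m, It ⁅N, H⁆ m = ⊥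
    · exfalso
      obtain ⟨m, hm⟩ := hex
      have h1 : GN Ω (H ⊔ G0) := hH.sup hG
      have h2 : ∃ m, It ⁅N, H ⊔ G0⁆ m = ⊥ := by
        refine ⟨m + m0, ?_⟩
        have e1 : ⁅N, H ⊔ G0⁆ ≤ ⁅N, H⁆ ⊔ ⁅N, G0⁆ := by
          rw [Subgroup.commutator_comm N, Subgroup.commutator_comm N, Subgroup.commutator_comm N]
          exact comm_sup_le hH.1 hG.1 hN.1
        have e2 := (It_mono e1 (m + m0)).trans
          (It_sup_le (comm_GN hN hH) (comm_GN hN hG) (m + m0))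
        have e3 : It ⁅N, H⁆ (m + m0) ≤ ⊥ := hm ▸ It_anti (comm_GN hN hH) (by omega)
        have e4 : It ⁅N, G0⁆ (m + m0) ≤ ⊥ := hm0 ▸ It_anti (comm_GN hN hG) (by omega)
        exact le_bot_iff.1 (e2.trans (sup_le e3 e4))
      have h3 := hmax (H ⊔ G0) ⟨h1, h2⟩
      have h4 : G0 ≤ H ⊔ G0 := le_sup_right
      rcases eq_or_lt_of_le h4 with h5 | h5
      · exact hnot (h5 ▸ le_sup_left)
      · exact h3 h5
    · obtain ⟨i, hi⟩ := It_stab (comm_GN hN hH)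
      have h1 : It ⁅N, H⁆ i ≠ ⊥ := fun e => hex ⟨i, e⟩
      have h2 := hmin (It ⁅N, H⁆ i) ⟨It_GN (comm_GN hN hH) i, h1, hi⟩
      have h3 : It ⁅N, H⁆ i ≤ ⁅N, H⁆ := It_anti (comm_GN hN hH) (Nat.zero_le i)
      have h4 : ⁅N, H⁆ ≤ N := by
        have := hN.1
        exact Subgroup.commutator_le_left _ _
      have h5 : ⁅N, H⁆ ≤ H := by
        have := hH.1
        exact Subgroup.commutator_le_right _ _
      rcases eq_or_lt_of_le (h3.trans h4) with h6 | h6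
      · rw [← h6]; exact h3.trans h5
      · exact absurd h6 h2
  · rw [← hNf]
    exact Subgroup.commutator_mono le_top le_rfl

/-- **The step.** -/
theorem exists_step [Finite G] (hab : ⁅(⊤ : Subgroup G), (⊤ : Subgroup G)⁆ ≠ ⊥) :
    ∃ N : Subgroup G, GN Ω N ∧ N ≠ ⊥ ∧ N ≤ ⁅(⊤ : Subgroup G), (⊤ : Subgroup G)⁆ ∧
      ∀ (k : ℕ), 2 ≤ k → ∀ U V : Fin k → G, Gen Ω U → Gen Ω V →
        (∀ i, (U i)⁻¹ * V i ∈ N) → AC Ω U V := by
  by_cases hnil : ∃ m, LC G m = ⊥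
  · classical
    obtain ⟨m, hm, hmin⟩ : ∃ m, LC G m = ⊥ ∧ ∀ j < m, LC G j ≠ ⊥ :=
      ⟨Nat.find hnil, Nat.find_spec hnil, fun j hj => Nat.find_min hnil hj⟩
    have hm2 : 2 ≤ m := by
      by_contra hcon
      have h1 : LC G 1 = ⊥ := by
        rcases (by omega : m = 0 ∨ m = 1) with h | h
        · subst h
          have : (⊤ : Subgroup G) = ⊥ := hm
          show ⁅(⊤ : Subgroup G), (⊤ : Subgroup G)⁆ = ⊥
          rw [this]
          exact Subgroup.commutator_bot_right _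
        · rw [← h]; exact hm
      exact hab h1
    obtain ⟨j, rfl⟩ : ∃ j, m = j + 2 := ⟨m - 2, by omega⟩
    refine ⟨LC G (j + 1), LC_GN _, hmin _ (by omega), ?_, ?_⟩
    · show ⁅LC G j, (⊤ : Subgroup G)⁆ ≤ _
      exact Subgroup.commutator_mono le_top le_rfl
    · intro k hk U V hU _ hUV
      exact liftB hm hk hU hUV
  · have hLI : ∀ i, LC G i = It (⊤ : Subgroup G) i := by
      intro i
      induction i with
      | zero => rfl
      | succ i ih =>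
        show ⁅LC G i, (⊤ : Subgroup G)⁆ = ⁅It (⊤ : Subgroup G) i, (⊤ : Subgroup G)⁆
        rw [ih]
    obtain ⟨i, hi⟩ := It_stab (Ω := Ω) (top_GN (G := G))
    have hne : It (⊤ : Subgroup G) i ≠ ⊥ := fun e => hnil ⟨i, (hLI i).trans e⟩
    obtain ⟨N, G0, hT, h1, h2⟩ := exists_typeA (It_GN (Ω := Ω) top_GN i) hne hi
    exact ⟨N, hT.N_gn, h1, h2, fun k hk U V hU hV hUV => hT.lift hk hU hV hUV⟩

end Pool.Agent.ACG
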