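import Pool.Agent.ACG.Moves

/-! Lifting, first kind: every invariant normal subgroup outside `G0` contains `N`. -/

set_option autoImplicit false

namespace Pool.Agent.ACG

open Relation

variable {G Ω : Type} [Group G] [Group Ω] [MulDistribMulAction Ω G] {k : ℕ}

/-- the hypotheses on `N` and `G0` -/
structure TypeA (Ω : Type) {G : Type} [Group G] [Group Ω] [MulDistribMulAction Ω G]
    (N G0 : Subgroup G) : Prop where
  N_gn : GN Ω N
  G0_gn : GN Ω G0
  G0_ne : G0 ≠ ⊤
  out : ∀ H : Subgroup G, GN Ω H → ¬ H ≤ G0 → N ≤ H

variable {N G0 : Subgroup G}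

lemma TypeA.exists_out (h : TypeA Ω N G0) {a : Fin k → G} (ha : Gen Ω a) : ∃ i, a i ∉ G0 := by
  by_contra hcon
  push Not at hcon
  exact h.G0_ne (ha G0 h.G0_gn.1 h.G0_gn.2 hcon)

lemma TypeA.le_nc (h : TypeA Ω N G0) {x : G} (hx : x ∉ G0) {H : Subgroup G} (hH : GN Ω H)
    (hxH : x ∈ H) : N ≤ H :=
  h.out H hH (fun hle => hx (hle hxH))

/-- Lemma A. -/
lemma TypeA.one (h : TypeA Ω N G0) (a : Fin k → G) {i j : Fin k} (hij : i ≠ j) (hi : a i ∉ G0)
    {y : G} (hy : y ∈ N) : AC Ω a (Function.update a j (a j * y)) :=
  mulMove a j (fun _ hH hl => h.le_nc hi hH (hl i hij) hy)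

/-- Lemma A, in terms of the new entry -/
lemma TypeA.one' (h : TypeA Ω N G0) (a : Fin k → G) {i j : Fin k} (hij : i ≠ j) (hi : a i ∉ G0)
    {y : G} (hy : (a j)⁻¹ * y ∈ N) : AC Ω a (Function.update a j y) := by
  have := h.one a hij hi hy
  rwa [mul_inv_cancel_left] at this

/-- Lemma A'. -/
lemma TypeA.rest (h : TypeA Ω N G0) (a b : Fin k → G) {i : Fin k} (hi : a i ∉ G0)
    (hab : ∀ l, (a l)⁻¹ * b l ∈ N) (hib : a i = b i) : AC Ω a b := by
  classical
  have key : ∀ s : Finset (Fin k), AC Ω a (fun l => if l ∈ s then b l else a l) := by
    intro s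
    induction s using Finset.induction_on with
    | empty => simpa using AC.refl (Ω := Ω) a
    | insert j s hj ih =>
      by_cases hji : j = i
      · have e : (fun l => if l ∈ insert j s then b l else a l)
            = (fun l => if l ∈ s then b l else a l) := by
          funext l
          by_cases hl : l = i
          · subst hl
            simp [hib]
          · have : l ≠ j := fun e => hl (e.trans hji)
            simp [Finset.mem_insert, this]
        rw [e]; exact ih
      · have hc : (fun l => if l ∈ s then b l else a l) i ∉ G0 := by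
          have e : (fun l => if l ∈ s then b l else a l) i = a i := by
            simp only
            split_ifs
            · exact hib.symm
            · rfl
          rw [e]
          exact hi
        have h1 := h.one' (fun l => if l ∈ s then b l else a l) (j := j) (Ne.symm hji) hc (y := b j)
          (by simp only [if_neg hj]; exact hab j)
        have e : (fun l => if l ∈ insert j s then b l else a l)
            = Function.update (fun l => if l ∈ s then b l else a l) j (b j) := by
          funext l
          by_cases hl : l = j
          · subst hl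
            simp
          · rw [Function.update_of_ne hl]
            simp [Finset.mem_insert, hl]
        rw [e]
        exact ih.trans h1
  have := key Finset.univ
  simpa using this

lemma congr_update (N : Subgroup G) (a : Fin k → G) (j : Fin k) {y : G}
    (hy : (a j)⁻¹ * y ∈ N) : ∀ l, (a l)⁻¹ * Function.update a j y l ∈ N := by
  intro l
  by_cases hl : l = j
  · subst hl
    rw [Function.update_self]; exact hy
  · rw [Function.update_of_ne hl, inv_mul_cancel]
    exact N.one_mem

lemma congr_trans (N : Subgroup G) {x y z : G} (h : x⁻¹ * y ∈ N) (h' : y⁻¹ * z ∈ N) :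
    x⁻¹ * z ∈ N := by
  have := N.mul_mem h h'
  rwa [mul_assoc, mul_inv_cancel_left] at this

lemma congr_symm (N : Subgroup G) {x y : G} (h : x⁻¹ * y ∈ N) : y⁻¹ * x ∈ N := by
  have := N.inv_mem h
  rwa [mul_inv_rev, inv_inv] at this

/-- Lifting, first kind. -/
theorem TypeA.lift (h : TypeA Ω N G0) (hk : 2 ≤ k) {U V : Fin k → G} (hU : Gen Ω U)
    (hV : Gen Ω V) (hUV : ∀ i, (U i)⁻¹ * V i ∈ N) : AC Ω U V := by
  classical
  by_cases hN : N ≤ G0
  · -- entries outside `G0` are the same
    obtain ⟨i, hi⟩ := h.exists_out hU
    have hVi : V i ∉ G0 := by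
      intro hcon
      apply hi
      have h1 := G0.mul_mem hcon (G0.inv_mem (hN (hUV i)))
      rwa [mul_inv_rev, inv_inv, mul_inv_cancel_left] at h1
    obtain ⟨j, hj⟩ : ∃ j : Fin k, i ≠ j := by
      by_cases h0 : i = ⟨0, by omega⟩
      · exact ⟨⟨1, by omega⟩, by rw [h0]; simp [Fin.ext_iff]⟩
      · exact ⟨⟨0, by omega⟩, h0⟩
    -- first change all entries except `i`
    set W := Function.update V i (U i) with hW
    have hUW : AC Ω U W := by
      refine h.rest U W hi ?_ (by rw [hW, Function.update_self])
      intro l
      by_cases hl : l = i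
      · subst hl
        rw [hW, Function.update_self, inv_mul_cancel]; exact N.one_mem
      · rw [hW, Function.update_of_ne hl]; exact hUV l
    refine hUW.trans ?_
    have hWi : W i = U i := by rw [hW, Function.update_self]
    have hWj : W j = V j := by rw [hW, Function.update_of_ne hj.symm]
    have hWV : Function.update W i (V i) = V := by
      rw [hW, Function.update_idem, Function.update_eq_self]
    by_cases hVj : V j ∈ G0
    · -- the five moves
      set n := (U i)⁻¹ * V i with hn
      have hnN : n ∈ N := hUV i
      set m := (V j)⁻¹ * n⁻¹ * V j with hm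
      have hmN : m ∈ N := by
        have := h.N_gn.1.conj_mem _ (N.inv_mem hnN) (V j)⁻¹
        simpa [hm] using this
      -- W → W1 : multiply entry i by entry j
      set W1 := Function.update W i (U i * V j) with hW1
      have s1 : AC Ω W W1 := by
        have := mv_mul (Ω := Ω) W hj
        rwa [hWi, hWj] at this
      have hW1i : W1 i = U i * V j := by rw [hW1, Function.update_self]
      have hW1j : W1 j = V j := by rw [hW1, Function.update_of_ne hj.symm, hWj]
      have ho1 : W1 i ∉ G0 := by
        rw [hW1i]
        intro hcon
        exact hi ((G0.mul_mem_cancel_right hVj).1 hcon)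
      -- W1 → W2 : multiply entry j by m
      set W2 := Function.update W1 j (V j * m) with hW2
      have s2 : AC Ω W1 W2 := by
        have := h.one W1 hj ho1 hmN
        rwa [hW1j] at this
      have hW2i : W2 i = U i * V j := by rw [hW2, Function.update_of_ne hj, hW1i]
      have hW2j : W2 j = V j * m := by rw [hW2, Function.update_self]
      -- W2 → W3
      set W3 := Function.update W2 i (V i) with hW3
      have s3 : AC Ω W2 W3 := by
        have := mv_mul_inv (Ω := Ω) W2 hj
        rw [hW2i, hW2j] at this
        have e : U i * V j * (V j * m)⁻¹ = V i := by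
          rw [hm, hn]; group
        rwa [e] at this
      have hW3i : W3 i = V i := by rw [hW3, Function.update_self]
      have hW3j : W3 j = V j * m := by rw [hW3, Function.update_of_ne hj.symm, hW2j]
      -- W3 → V
      have s4 : AC Ω W3 (Function.update W3 j (V j)) := by
        refine h.one' W3 hj (by rw [hW3i]; exact hVi) ?_
        rw [hW3j, mul_inv_rev, mul_assoc, inv_mul_cancel, mul_one]
        exact N.inv_mem hmN
      have e : Function.update W3 j (V j) = V := by
        funext l
        by_cases hlj : l = j
        · subst hlj; rw [Function.update_self]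
        · rw [Function.update_of_ne hlj]
          by_cases hli : l = i
          · subst hli; exact hW3i
          · rw [hW3, Function.update_of_ne hli, hW2, Function.update_of_ne hlj, hW1,
              Function.update_of_ne hli, hW, Function.update_of_ne hli]
      rw [e] at s4
      exact ((s1.trans s2).trans s3).trans s4
    · have := h.one' W (i := j) (j := i) hj.symm (by rw [hWj]; exact hVj) (y := V i)
        (by rw [hWi]; exact hUV i)
      rwa [hWV] at this
  · -- `N` is not inside `G0`
    obtain ⟨m0, hm0, hm0'⟩ : ∃ m ∈ N, m ∉ G0 := Set.not_subset.1 hN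
    -- adjust an entry
    have adj : ∀ (a : Fin k → G), Gen Ω a → ∀ i : Fin k, ∃ a' : Fin k → G, AC Ω a a' ∧
        (∀ l, (a l)⁻¹ * a' l ∈ N) ∧ a' i ∉ G0 := by
      intro a ha i
      by_cases hi : a i ∈ G0
      · obtain ⟨i0, hi0⟩ := h.exists_out ha
        have hne : i0 ≠ i := fun e => hi0 (e ▸ hi)
        refine ⟨Function.update a i (a i * m0), h.one a hne hi0 hm0, ?_, ?_⟩
        · exact congr_update N a i (by rw [inv_mul_cancel_left]; exact hm0)
        · rw [Function.update_self]
          intro hcon
          exact hm0' ((G0.mul_mem_cancel_left hi).1 hcon)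
      · exact ⟨a, AC.refl a, fun l => by rw [inv_mul_cancel]; exact N.one_mem, hi⟩
    set i0 : Fin k := ⟨0, by omega⟩ with hi0
    set i1 : Fin k := ⟨1, by omega⟩ with hi1
    have h01 : i0 ≠ i1 := by rw [hi0, hi1]; simp [Fin.ext_iff]
    obtain ⟨U', u1, u2, u3⟩ := adj U hU i0
    obtain ⟨V', v1, v2, v3⟩ := adj V hV i0
    have hc : ∀ l, (U' l)⁻¹ * V' l ∈ N := fun l =>
      congr_trans N (congr_trans N (congr_symm N (u2 l)) (hUV l)) (v2 l)
    -- an entry outside `G0` at `i1`
    obtain ⟨w, hw1, hw2⟩ : ∃ w, (V' i1)⁻¹ * w ∈ N ∧ w ∉ G0 := by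
      by_cases hV1 : V' i1 ∈ G0
      · exact ⟨V' i1 * m0, by rw [inv_mul_cancel_left]; exact hm0, fun hcon =>
          hm0' ((G0.mul_mem_cancel_left hV1).1 hcon)⟩
      · exact ⟨V' i1, by rw [inv_mul_cancel]; exact N.one_mem, hV1⟩
    -- U' → W = (U'_0, w, V'_2, ...)
    set W := Function.update (Function.update V' i0 (U' i0)) i1 w with hW
    have s1 : AC Ω U' W := by
      refine h.rest U' W (i := i0) u3 ?_ ?_
      · intro l
        by_cases hl1 : l = i1
        · subst hl1
          rw [hW, Function.update_self]
          exact congr_trans N (hc _) hw1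
        · rw [hW, Function.update_of_ne hl1]
          by_cases hl0 : l = i0
          · subst hl0
            rw [Function.update_self, inv_mul_cancel]; exact N.one_mem
          · rw [Function.update_of_ne hl0]; exact hc l
      · rw [hW, Function.update_of_ne h01, Function.update_self]
    -- W → W' = (V'_0, w, V'_2, ...)
    set W' := Function.update W i0 (V' i0) with hW'
    have s2 : AC Ω W W' := by
      refine h.one' W (i := i1) (j := i0) h01.symm ?_ ?_
      · rw [hW, Function.update_self]; exact hw2
      · rw [hW, Function.update_of_ne h01, Function.update_self]; exact hc i0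
    -- W' → V'
    have s3 : AC Ω W' V' := by
      have hW'0 : W' i0 = V' i0 := by rw [hW', Function.update_self]
      refine h.rest W' V' (i := i0) (by rw [hW'0]; exact v3) ?_ hW'0
      intro l
      by_cases hl0 : l = i0
      · subst hl0; rw [hW'0, inv_mul_cancel]; exact N.one_mem
      · rw [hW', Function.update_of_ne hl0, hW]
        by_cases hl1 : l = i1
        · subst hl1
          rw [Function.update_self]; exact congr_symm N hw1
        · rw [Function.update_of_ne hl1, Function.update_of_ne hl0, inv_mul_cancel]
          exact N.one_mem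
    exact (((u1.trans s1).trans s2).trans s3).trans v1.symm

end Pool.Agent.ACG
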