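import Pool.Agent.ACG.Exist

/-! Induction over the order of the group. -/

set_option autoImplicit false

namespace Pool.Agent.ACG

open Relation Subgroup
open scoped commutatorElement

section quot

variable {G Ω : Type} [Group G] [Group Ω] [MulDistribMulAction Ω G]

/-- the action on the quotient by an invariant normal subgroup -/
@[reducible] def quotAct (N : Subgroup G) [hN : N.Normal] (hΩ : ∀ ω : Ω, ∀ h ∈ N, ω • h ∈ N) :
    MulDistribMulAction Ω (G ⧸ N) where
  smul ω := QuotientGroup.map N N (MulDistribMulAction.toMonoidHom G ω) (fun h hh => hΩ ω h hh)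
  one_smul := by
    intro x
    induction x using QuotientGroup.induction_on with
    | H g =>
      show ((((1 : Ω) • g : G)) : G ⧸ N) = (g : G ⧸ N)
      rw [one_smul]
  mul_smul := by
    intro a b x
    induction x using QuotientGroup.induction_on with
    | H g =>
      show ((((a * b) • g : G)) : G ⧸ N) = ((a • b • g : G) : G ⧸ N)
      rw [mul_smul]
  smul_mul := by
    intro a x y
    exact map_mul (QuotientGroup.map N N (MulDistribMulAction.toMonoidHom G a)
      (fun h hh => hΩ a h hh)) x y
  smul_one := by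
    intro a
    exact map_one (QuotientGroup.map N N (MulDistribMulAction.toMonoidHom G a)
      (fun h hh => hΩ a h hh))

end quot

/-- lifting of paths along a surjective equivariant map -/
lemma lift_path {G Q Ω : Type} [Group G] [Group Q] [Group Ω] [MulDistribMulAction Ω G]
    [MulDistribMulAction Ω Q] (π : G →* Q) (hπ : Function.Surjective π)
    (he : ∀ (ω : Ω) (g : G), π (ω • g) = ω • π g) {k : ℕ} (a : Fin k → G) {b : Fin k → Q}
    (h : AC Ω (fun i => π (a i)) b) : ∃ a' : Fin k → G, AC Ω a a' ∧ ∀ i, π (a' i) = b i := by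
  induction h with
  | refl => exact ⟨a, AC.refl a, fun _ => rfl⟩
  | @tail c d _ h2 ih =>
    obtain ⟨a', h1, h3⟩ := ih
    have hup : ∀ (i : Fin k) (x : G) (y : Q), π x = y →
        ∀ l, π (Function.update a' i x l) = Function.update c i y l := by
      intro i x y hxy l
      by_cases hl : l = i
      · subst hl
        rw [Function.update_self, Function.update_self, hxy]
      · rw [Function.update_of_ne hl, Function.update_of_ne hl, h3]
    rcases h2 with ⟨i, j, hij, h2⟩ | ⟨i, h2⟩ | ⟨i, g, h2⟩ | ⟨i, ω, h2⟩
    · rcases h2 with h2 | h2 | h2 | h2 <;> subst h2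
      · exact ⟨_, h1.trans (mv_mul a' hij), hup i _ _ (by rw [map_mul, h3, h3])⟩
      · exact ⟨_, h1.trans (mv_mul_inv a' hij), hup i _ _ (by rw [map_mul, map_inv, h3, h3])⟩
      · exact ⟨_, h1.trans (mv_lmul a' hij), hup i _ _ (by rw [map_mul, h3, h3])⟩
      · exact ⟨_, h1.trans (mv_linv a' hij), hup i _ _ (by rw [map_mul, map_inv, h3, h3])⟩
    · subst h2
      exact ⟨_, h1.trans (mv_inv a' i), hup i _ _ (by rw [map_inv, h3])⟩
    · subst h2
      obtain ⟨g', rfl⟩ := hπ g
      exact ⟨_, h1.trans (mv_conj a' i g'), hup i _ _ (by rw [map_mul, map_mul, map_inv, h3])⟩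
    · subst h2
      exact ⟨_, h1.trans (mv_op a' i ω), hup i _ _ (by rw [he, h3])⟩

/-- **The main theorem**: generating tuples which agree modulo the commutator subgroup are
equivalent. -/
theorem main (n : ℕ) : ∀ (G Ω : Type) [Group G] [Finite G] [Group Ω] [MulDistribMulAction Ω G],
    Nat.card G ≤ n → ∀ (k : ℕ), 2 ≤ k → ∀ U V : Fin k → G, Gen Ω U → Gen Ω V →
      (∀ i, (U i)⁻¹ * V i ∈ ⁅(⊤ : Subgroup G), (⊤ : Subgroup G)⁆) → AC Ω U V := by
  induction n with
  | zero =>
    intro G Ω _ _ _ _ hc
    exact absurd hc (by have := Nat.card_pos (α := G); omega)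
  | succ n ih =>
    intro G Ω _ _ _ _ hc k hk U V hU hV hUV
    by_cases hab : ⁅(⊤ : Subgroup G), (⊤ : Subgroup G)⁆ = ⊥
    · have : U = V := by
        funext i
        have := hUV i
        rw [hab, Subgroup.mem_bot] at this
        exact inv_mul_eq_one.1 this
      rw [this]
      exact AC.refl V
    · obtain ⟨N, hN, hne, hle, hlift⟩ := exists_step (Ω := Ω) hab
      have hNn := hN.1
      letI := quotAct (Ω := Ω) N hN.2
      have hcard : Nat.card (G ⧸ N) ≤ n := by
        have h1 : 1 < Nat.card N := by
          rw [Subgroup.one_lt_card_iff_ne_bot]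
          exact hne
        have h2 := Subgroup.card_eq_card_quotient_mul_card_subgroup N
        have h3 : 0 < Nat.card (G ⧸ N) := Nat.card_pos
        nlinarith
      set π : G →* G ⧸ N := QuotientGroup.mk' N with hπ
      have hsur : Function.Surjective π := QuotientGroup.mk'_surjective N
      have he : ∀ (ω : Ω) (g : G), π (ω • g) = ω • π g := fun ω g => rfl
      have hgen : ∀ W : Fin k → G, Gen Ω W → Gen Ω (fun i => π (W i)) := by
        intro W hW H h1 h2 h3
        have h4 := hW (H.comap π) (h1.comap π) (fun ω h hh => by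
          rw [Subgroup.mem_comap] at hh ⊢
          rw [he]
          exact h2 ω _ hh) h3
        rw [eq_top_iff]
        intro x _
        obtain ⟨g, rfl⟩ := hsur x
        have : g ∈ H.comap π := by rw [h4]; trivial
        exact this
      have hcomm : ∀ i, (π (U i))⁻¹ * π (V i) ∈ ⁅(⊤ : Subgroup (G ⧸ N)), (⊤ : Subgroup (G ⧸ N))⁆ := by
        intro i
        have h1 : ⁅(⊤ : Subgroup G), (⊤ : Subgroup G)⁆ ≤
            (⁅(⊤ : Subgroup (G ⧸ N)), (⊤ : Subgroup (G ⧸ N))⁆).comap π := by
          rw [Subgroup.commutator_le]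
          intro g _ g' _
          rw [Subgroup.mem_comap, map_commutatorElement]
          exact Subgroup.commutator_mem_commutator (Subgroup.mem_top _) (Subgroup.mem_top _)
        have := h1 (hUV i)
        rw [Subgroup.mem_comap, map_mul, map_inv] at this
        exact this
      have h1 := ih (G ⧸ N) Ω hcard k hk _ _ (hgen U hU) (hgen V hV) hcomm
      obtain ⟨V', h2, h3⟩ := lift_path π hsur he U h1
      refine h2.trans (hlift k hk V' V (h2.gen hU) hV ?_)
      intro i
      rw [← QuotientGroup.eq]
      exact h3 i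

end Pool.Agent.ACG
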