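import Mathlib

/-! Andrews-Curtis moves in a group with operators. -/

set_option autoImplicit false

namespace Pool.Agent.ACG

open Relation

variable {G Ω : Type} [Group G] [Group Ω] [MulDistribMulAction Ω G]

/-- `H` is normal and invariant under the operators. -/
def GN (Ω : Type) {G : Type} [Group G] [Group Ω] [MulDistribMulAction Ω G] (H : Subgroup G) :
    Prop := H.Normal ∧ ∀ ω : Ω, ∀ h ∈ H, ω • h ∈ H

/-- elementary transformations, as in the frozen statement -/
def step (Ω : Type) {G : Type} [Group G] [Group Ω] [MulDistribMulAction Ω G] {k : ℕ}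
    (a b : Fin k → G) : Prop :=
  (∃ i j : Fin k, i ≠ j ∧
    (b = Function.update a i (a i * a j) ∨
     b = Function.update a i (a i * (a j)⁻¹) ∨
     b = Function.update a i (a j * a i) ∨
     b = Function.update a i ((a j)⁻¹ * a i))) ∨
  (∃ i : Fin k, b = Function.update a i (a i)⁻¹) ∨
  (∃ (i : Fin k) (g : G), b = Function.update a i (g⁻¹ * a i * g)) ∨
  (∃ (i : Fin k) (ω : Ω), b = Function.update a i (ω • a i))

/-- equivalence of tuples -/
def AC (Ω : Type) {G : Type} [Group G] [Group Ω] [MulDistribMulAction Ω G] {k : ℕ}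
    (a b : Fin k → G) : Prop := ReflTransGen (step Ω) a b

/-- normal generation -/
def Gen (Ω : Type) {G : Type} [Group G] [Group Ω] [MulDistribMulAction Ω G] {k : ℕ}
    (U : Fin k → G) : Prop :=
  ∀ H : Subgroup G, H.Normal → (∀ ω : Ω, ∀ h ∈ H, ω • h ∈ H) → (∀ i, U i ∈ H) → H = ⊤

/-- the normal closure with operators -/
def nc (Ω : Type) {G : Type} [Group G] [Group Ω] [MulDistribMulAction Ω G] (S : Set G) :
    Subgroup G := sInf {H | GN Ω H ∧ S ⊆ H}

lemma nc_GN (S : Set G) : GN Ω (nc Ω S) := by
  constructor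
  · constructor
    intro n hn g
    rw [nc, Subgroup.mem_sInf] at hn ⊢
    intro H hH
    exact hH.1.1.conj_mem n (hn H hH) g
  · intro ω h hh
    rw [nc, Subgroup.mem_sInf] at hh ⊢
    intro H hH
    exact hH.1.2 ω h (hh H hH)

lemma subset_nc (S : Set G) : S ⊆ nc Ω S := by
  intro x hx
  rw [SetLike.mem_coe, nc, Subgroup.mem_sInf]
  intro H hH
  exact hH.2 hx

lemma nc_le {S : Set G} {H : Subgroup G} (hH : GN Ω H) (hS : S ⊆ H) : nc Ω S ≤ H :=
  sInf_le ⟨hH, hS⟩

variable {k : ℕ}

section moves

variable (a : Fin k → G)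

lemma mv_mul {i j : Fin k} (h : i ≠ j) : AC Ω a (Function.update a i (a i * a j)) :=
  ReflTransGen.single (Or.inl ⟨i, j, h, Or.inl rfl⟩)

lemma mv_mul_inv {i j : Fin k} (h : i ≠ j) : AC Ω a (Function.update a i (a i * (a j)⁻¹)) :=
  ReflTransGen.single (Or.inl ⟨i, j, h, Or.inr (Or.inl rfl)⟩)

lemma mv_lmul {i j : Fin k} (h : i ≠ j) : AC Ω a (Function.update a i (a j * a i)) :=
  ReflTransGen.single (Or.inl ⟨i, j, h, Or.inr (Or.inr (Or.inl rfl))⟩)

lemma mv_linv {i j : Fin k} (h : i ≠ j) : AC Ω a (Function.update a i ((a j)⁻¹ * a i)) :=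
  ReflTransGen.single (Or.inl ⟨i, j, h, Or.inr (Or.inr (Or.inr rfl))⟩)

lemma mv_inv (i : Fin k) : AC Ω a (Function.update a i (a i)⁻¹) :=
  ReflTransGen.single (Or.inr (Or.inl ⟨i, rfl⟩))

lemma mv_conj (i : Fin k) (g : G) : AC Ω a (Function.update a i (g⁻¹ * a i * g)) :=
  ReflTransGen.single (Or.inr (Or.inr (Or.inl ⟨i, g, rfl⟩)))

lemma mv_op (i : Fin k) (ω : Ω) : AC Ω a (Function.update a i (ω • a i)) :=
  ReflTransGen.single (Or.inr (Or.inr (Or.inr ⟨i, ω, rfl⟩)))

end moves

lemma step_symm {a b : Fin k → G} (h : step Ω a b) : AC Ω b a := by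
  rcases h with ⟨i, j, hij, h⟩ | ⟨i, h⟩ | ⟨i, g, h⟩ | ⟨i, ω, h⟩
  · rcases h with h | h | h | h
    · have h1 := mv_mul_inv (Ω := Ω) b hij
      subst h
      simpa [Function.update_of_ne hij.symm] using h1
    · have h1 := mv_mul (Ω := Ω) b hij
      subst h
      simpa [Function.update_of_ne hij.symm] using h1
    · have h1 := mv_linv (Ω := Ω) b hij
      subst h
      simpa [Function.update_of_ne hij.symm] using h1
    · have h1 := mv_lmul (Ω := Ω) b hij
      subst h
      simpa [Function.update_of_ne hij.symm] using h1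
  · have h1 := mv_inv (Ω := Ω) b i
    subst h
    simpa using h1
  · have h1 := mv_conj (Ω := Ω) b i g⁻¹
    subst h
    simpa [mul_assoc] using h1
  · have h1 := mv_op (Ω := Ω) b i ω⁻¹
    subst h
    simpa using h1

lemma AC.symm {a b : Fin k → G} (h : AC Ω a b) : AC Ω b a := by
  induction h with
  | refl => exact ReflTransGen.refl
  | tail _ h2 ih => exact (step_symm h2).trans ih

lemma AC.trans {a b c : Fin k → G} (h : AC Ω a b) (h' : AC Ω b c) : AC Ω a c :=
  ReflTransGen.trans h h'

lemma AC.refl (a : Fin k → G) : AC Ω a a := ReflTransGen.refl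

lemma step_mem {a b : Fin k → G} (h : step Ω a b) {H : Subgroup G} (hH : GN Ω H)
    (ha : ∀ i, a i ∈ H) : ∀ i, b i ∈ H := by
  intro l
  have key : ∀ (i : Fin k) (x : G), x ∈ H → Function.update a i x l ∈ H := by
    intro i x hx
    by_cases hl : l = i
    · subst hl
      rw [Function.update_self]
      exact hx
    · rw [Function.update_of_ne hl]
      exact ha l
  rcases h with ⟨i, j, hij, h⟩ | ⟨i, h⟩ | ⟨i, g, h⟩ | ⟨i, ω, h⟩
  · rcases h with h | h | h | h <;> subst h <;> apply key
    · exact H.mul_mem (ha i) (ha j)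
    · exact H.mul_mem (ha i) (H.inv_mem (ha j))
    · exact H.mul_mem (ha j) (ha i)
    · exact H.mul_mem (H.inv_mem (ha j)) (ha i)
  · subst h
    exact key _ _ (H.inv_mem (ha i))
  · subst h
    apply key
    have := hH.1.conj_mem _ (ha i) g⁻¹
    simpa using this
  · subst h
    exact key _ _ (hH.2 ω _ (ha i))

lemma AC.mem {a b : Fin k → G} (h : AC Ω a b) {H : Subgroup G} (hH : GN Ω H)
    (ha : ∀ i, a i ∈ H) : ∀ i, b i ∈ H := by
  induction h with
  | refl => exact ha
  | tail _ h2 ih => exact step_mem h2 hH ih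

lemma AC.gen {a b : Fin k → G} (h : AC Ω a b) (ha : Gen Ω a) : Gen Ω b := by
  intro H h1 h2 h3
  exact ha H h1 h2 (h.symm.mem ⟨h1, h2⟩ h3)

/-- Multiply an entry by an element of the normal closure of the others. -/
lemma mulMove (a : Fin k → G) (j : Fin k) {y : G}
    (hy : ∀ H : Subgroup G, GN Ω H → (∀ l, l ≠ j → a l ∈ H) → y ∈ H) :
    AC Ω a (Function.update a j (a j * y)) := by
  -- the subgroup of all admissible elements
  let F : Subgroup G :=
    { carrier := {y | ∀ b : Fin k → G, (∀ l, l ≠ j → b l = a l) →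
        AC Ω b (Function.update b j (b j * y))}
      one_mem' := by
        intro b _
        simpa using AC.refl (Ω := Ω) b
      mul_mem' := by
        intro x y hx hy b hb
        have h1 := hx b hb
        have h2 := hy (Function.update b j (b j * x))
          (fun l hl => by rw [Function.update_of_ne hl]; exact hb l hl)
        rw [Function.update_self, Function.update_idem, mul_assoc] at h2
        exact h1.trans h2
      inv_mem' := by
        intro x hx b hb
        have h2 := hx (Function.update b j (b j * x⁻¹))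
          (fun l hl => by rw [Function.update_of_ne hl]; exact hb l hl)
        rw [Function.update_self, Function.update_idem, inv_mul_cancel_right,
          Function.update_eq_self] at h2
        exact h2.symm }
  have hF : GN Ω F := by
    constructor
    · constructor
      intro n hn g b hb
      have h1 := mv_conj (Ω := Ω) b j g
      have h2 := hn (Function.update b j (g⁻¹ * b j * g))
        (fun l hl => by rw [Function.update_of_ne hl]; exact hb l hl)
      rw [Function.update_self, Function.update_idem] at h2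
      have h3 := mv_conj (Ω := Ω) (Function.update b j (g⁻¹ * b j * g * n)) j g⁻¹
      rw [Function.update_self, Function.update_idem] at h3
      have e : (g⁻¹)⁻¹ * (g⁻¹ * b j * g * n) * g⁻¹ = b j * (g * n * g⁻¹) := by group
      rw [e] at h3
      exact (h1.trans h2).trans h3
    · intro ω n hn b hb
      have h1 := mv_op (Ω := Ω) b j ω⁻¹
      have h2 := hn (Function.update b j (ω⁻¹ • b j))
        (fun l hl => by rw [Function.update_of_ne hl]; exact hb l hl)
      rw [Function.update_self, Function.update_idem] at h2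
      have h3 := mv_op (Ω := Ω) (Function.update b j (ω⁻¹ • b j * n)) j ω
      rw [Function.update_self, Function.update_idem, smul_mul', smul_inv_smul] at h3
      exact (h1.trans h2).trans h3
  have hmem : y ∈ F := by
    apply hy F hF
    intro l hl b hb
    have := mv_mul (Ω := Ω) b (Ne.symm hl)
    rw [hb l hl] at this
    exact this
  exact hmem a (fun _ _ => rfl)

end Pool.Agent.ACG
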